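import Pool.Agent.X297.KP.Lim
import Pool.Agent.X297.KP.Exist
import Pool.Agent.X297.KP.Uniq

set_option autoImplicit false

/-!
# MP_97d5d8_an, Q1: the converse of the asymptotic planarity criterion is false

The set `U = {(x,y) : y ≤ exp(x⁴)} ⊆ ℝ²` is closed, connected and satisfies (D), it does not
satisfy (B), and for every Fisher-KPP nonlinearity `f` the solution `u` with `u(0,·) = 1_U` has
asymptotic one-dimensional symmetry.

Proof.  The complement of `U` at height `y` is an interval of half width `w = (log y)^(1/4)`.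
As `f ≥ 0`, `u(t,·) ≥ e^(tΔ) 1_U`, so `u` is close to `1` at the points of height `y` as soon as
`t ≫ w²`.  For `t ≤ K w²`, Gronwall's inequality gives
`|u(t, x + h e₂) - u(t, x)| ≤ e^(Mt) e^(tΔ) |1_U(· + h e₂) - 1_U|(x)`, and the right hand side is
at most `C exp(M K w² - w⁴)`, because the boundary of `U` is nearly vertical at this height.
-/

open MeasureTheory Set

namespace Pool.Agent.Results.MP_97d5d8_an.ExpQuarticSubgraph

open Pool.Agent.X297.KP

/-- The set `{(x,y) : y ≤ exp(x⁴)}` is closed, connected, satisfies (D) and does not satisfy (B);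
for every Fisher-KPP nonlinearity `f` (there are some) the Cauchy problem with initial datum `1_U`
has one and only one solution `u` with values in `[0,1]`, and every element of `Ω(u)` is
one-dimensional. -/
theorem result :
    ∃ U : Set (E 2), U = {p : E 2 | p 1 ≤ Real.exp ((p 0) ^ 4)} ∧
      IsClosed U ∧ IsConnected U ∧ CondD U ∧ ¬ CondB U ∧ (∃ f : ℝ → ℝ, IsKPP f) ∧
      ∀ f : ℝ → ℝ, IsKPP f → ∃ u : ℝ → E 2 → ℝ, IsSolution f U u ∧
        (∀ v : ℝ → E 2 → ℝ, IsSolution f U v → ∀ t, 0 < t → ∀ x, v t x = u t x) ∧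
        ∀ ψ ∈ OmegaLimit u, OneDim ψ := by
  refine ⟨U0, rfl, U0_closed, U0_connected, U0_D, U0_not_B, ⟨fun s => s * (1 - s), ?_⟩, ?_⟩
  · have hd : ∀ x : ℝ, HasDerivAt (fun s : ℝ => s * (1 - s)) (1 - 2 * x) x := by
      intro x
      have := (hasDerivAt_id' x).mul ((hasDerivAt_id' x).const_sub 1)
      refine this.congr_deriv ?_
      ring
    have h0 : derivWithin (fun s : ℝ => s * (1 - s)) (Icc 0 1) 0 = 1 := by
      rw [(hd 0).hasDerivWithinAt.derivWithin
        (uniqueDiffOn_Icc zero_lt_one 0 (left_mem_Icc.mpr zero_le_one))]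
      ring
    refine ⟨?_, by simp, by simp, ?_, ?_⟩
    · apply ContDiff.contDiffOn
      fun_prop
    · rw [h0]; exact zero_lt_one
    · intro s hs
      rw [h0]
      refine ⟨mul_pos hs.1 (by linarith [hs.2]), ?_⟩
      nlinarith [hs.1, hs.2]
  · intro f hf
    obtain ⟨u, hu⟩ := exists_solution hf U0_closed.measurableSet
    exact ⟨u, hu, fun v hv t ht x => unique hf hu hv ht x, fun ψ hψ => oneDim hf hu hψ⟩

end Pool.Agent.Results.MP_97d5d8_an.ExpQuarticSubgraph
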